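import Pool.Agent.Helper17.R8.Sheet

/-! Row CERT (helper46), after Helper46/RS/CERTS.lean. -/

set_option autoImplicit false

namespace Pool.Helper17.R8

namespace S46

open Pool.Agent.Helper97.RK (cur)

section
variable {R S : Type*} [CommRing R] [CommRing S]

theorem map_ek (f : R →+* S) (s : Fin 8 → R) (k : ℕ) : f (ek s k) = ek (fun i => f (s i)) k := by
  unfold ek
  rw [map_sum]
  exact Finset.sum_congr rfl fun T _ => map_prod f _ _

theorem map_ss (f : R →+* S) (u : Fin 6 → R) (i : Fin 8) :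
    f (ss u i) = ss (fun i => f (u i)) i := by
  fin_cases i
  · rfl
  · rfl
  · rfl
  · rfl
  · rfl
  · rfl
  · exact map_one f
  · show f (-(u 0 + u 1 + u 2 + u 3 + u 4 + u 5 + 1)) =
      -(f (u 0) + f (u 1) + f (u 2) + f (u 3) + f (u 4) + f (u 5) + 1)
    simp only [map_neg, map_add, map_one]

theorem map_es (f : R →+* S) (u : Fin 6 → R) :
    (fun k => f (ek (ss u) k)) = ek (ss (fun i => f (u i))) := by
  funext k
  rw [map_ek]
  exact congrArg (fun s => ek s k) (funext fun i => map_ss f u i)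

theorem map_yv (f : R →+* S) (e : ℕ → R) (t s : R) :
    f (yv e t s) = yv (fun k => f (e k)) (f t) (f s) := by
  unfold yv
  simp only [map_add, map_sub, map_mul, map_pow, map_ofNat]

theorem map_y9 (f : R →+* S) (e : ℕ → R) (t : R) :
    f (y9 e t) = y9 (fun k => f (e k)) (f t) := by
  unfold y9
  simp only [map_sub, map_mul, map_pow]

theorem map_xX (f : R →+* S) (e : ℕ → R) (t ξ y η ζ w : R) :
    f (xX e t ξ y η ζ w) = xX (fun k => f (e k)) (f t) (f ξ) (f y) (f η) (f ζ) (f w) := by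
  unfold xX q4 q3 q2 q1 q0
  simp only [map_add, map_sub, map_mul, map_pow, map_ofNat]

/-- `px` over any ring -/
def gx (u : Fin 6 → R) (t : R) (j : Fin 8) : R :=
  if j = 7 then
    3 * xX (ek (ss u)) t (ss u 0 ^ 2) (yv (ek (ss u)) t (ss u 0)) (-(ek (ss u) 8)) t
      (y9 (ek (ss u)) t)
  else
    3 * xX (ek (ss u)) t (ss u j ^ 2) (yv (ek (ss u)) t (ss u j)) (ss u 7 ^ 2) 1
      (yv (ek (ss u)) t (ss u 7))

/-- `pv` over any ring -/
def gv (u : Fin 6 → R) (t : R) (j : Fin 8) : R :=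
  if j = 7 then 6 * (ss u 0 ^ 2 * t + ek (ss u) 8) else 6 * (ss u j ^ 2 - ss u 7 ^ 2)

theorem map_gx (f : R →+* S) (u : Fin 6 → R) (t : R) (j : Fin 8) :
    f (gx u t j) = gx (fun i => f (u i)) (f t) j := by
  unfold gx
  split_ifs with h
  · rw [map_mul, map_ofNat, map_xX, map_yv, map_y9, map_neg, map_pow, map_ss, map_es, map_ek]
    congr 6
    funext i
    exact map_ss f u i
  · rw [map_mul, map_ofNat, map_xX, map_yv, map_yv, map_pow, map_pow, map_ss, map_ss, map_es,
      map_one]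

theorem map_gv (f : R →+* S) (u : Fin 6 → R) (t : R) (j : Fin 8) :
    f (gv u t j) = gv (fun i => f (u i)) (f t) j := by
  unfold gv
  split_ifs with h
  · rw [map_mul, map_ofNat, map_add, map_mul, map_pow, map_ss, map_ek]
    congr 4
    funext i
    exact map_ss f u i
  · rw [map_mul, map_ofNat, map_sub, map_pow, map_pow, map_ss, map_ss]

end

/-- the numerators at the base -/
def PX : Fin 8 → ℤ := ![572311450266624, -737475469459200, -1443881372140800,
  -1118239606953216, 148266082646784, -273362088754944, 1558718673408,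
  108508173920075611569600]

/-- the denominators at the base -/
def PV : Fin 8 → ℤ := ![96, 960, 1680, 1296, 240, 672, -48, 22973400]

theorem gx_val (j : Fin 8) : gx ub 3 j = PX j := by
  revert j
  decide +kernel

theorem gv_val (j : Fin 8) : gv ub 3 j = PV j := by
  revert j
  decide +kernel

theorem dvdM {q : ℕ} (hq : q.Prime) (hq1 : q ≤ QQ) : (q : ℤ) ∣ ((QQ.factorial : ℕ) : ℤ) := by
  exact_mod_cast Nat.dvd_factorial hq.pos hq1

theorem castw {w : Par} (h : Cong w) {q : ℕ} (hq : q.Prime) (hq1 : q ≤ QQ) :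
    (fun i => Int.castRingHom (ZMod q) (w.1 i)) = (fun i => Int.castRingHom (ZMod q) (ub i)) ∧
    Int.castRingHom (ZMod q) w.2 = Int.castRingHom (ZMod q) 3 := by
  have hM : (q : ℤ) ∣ MM := by
    unfold MM
    exact (dvdM hq hq1).mul_left _
  have key : ∀ a b : ℤ, MM ∣ a - b → Int.castRingHom (ZMod q) a = Int.castRingHom (ZMod q) b := by
    intro a b hab
    rw [← sub_eq_zero, ← map_sub]
    exact (ZMod.intCast_zmod_eq_zero_iff_dvd _ q).2 (hM.trans hab)
  exact ⟨funext fun i => key _ _ (h.1 i), key _ _ h.2⟩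

theorem px_cast {w : Par} (h : Cong w) {q : ℕ} (hq : q.Prime) (hq1 : q ≤ QQ) (j : Fin 8) :
    ((px w j : ℤ) : ZMod q) = ((PX j : ℤ) : ZMod q) := by
  have e1 : px w j = gx w.1 w.2 j := rfl
  rw [← gx_val, e1]
  have h1 := map_gx (Int.castRingHom (ZMod q)) w.1 w.2 j
  have h2 := map_gx (Int.castRingHom (ZMod q)) ub 3 j
  obtain ⟨c1, c2⟩ := castw h hq hq1
  rw [c1, c2, ← h2] at h1
  exact h1

theorem pv_cast {w : Par} (h : Cong w) {q : ℕ} (hq : q.Prime) (hq1 : q ≤ QQ) (j : Fin 8) :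
    ((pv w j : ℤ) : ZMod q) = ((PV j : ℤ) : ZMod q) := by
  have e1 : pv w j = gv w.1 w.2 j := rfl
  rw [← gv_val, e1]
  have h1 := map_gv (Int.castRingHom (ZMod q)) w.1 w.2 j
  have h2 := map_gv (Int.castRingHom (ZMod q)) ub 3 j
  obtain ⟨c1, c2⟩ := castw h hq hq1
  rw [c1, c2, ← h2] at h1
  exact h1

theorem dec8 : ∀ S : Finset (Fin 8), S.Nonempty →
    ¬ IsSquare (∏ i ∈ S, ((PX i - 4 * PV i ^ 2 : ℤ) : ZMod 11)) ∨
    ¬ IsSquare (∏ i ∈ S, ((PX i - 9 * PV i ^ 2 : ℤ) : ZMod 13)) ∨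
    ¬ IsSquare (∏ i ∈ S, ((PX i - 11 * PV i ^ 2 : ℤ) : ZMod 17)) ∨
    ¬ IsSquare (∏ i ∈ S, ((PX i - 4 * PV i ^ 2 : ℤ) : ZMod 19)) ∨
    ¬ IsSquare (∏ i ∈ S, ((PX i - 6 * PV i ^ 2 : ℤ) : ZMod 19)) ∨
    ¬ IsSquare (∏ i ∈ S, ((PX i - 18 * PV i ^ 2 : ℤ) : ZMod 23)) ∨
    ¬ IsSquare (∏ i ∈ S, ((PX i - 0 * PV i ^ 2 : ℤ) : ZMod 29)) ∨
    ¬ IsSquare (∏ i ∈ S, ((PX i - 9 * PV i ^ 2 : ℤ) : ZMod 29)) := by
  decide +kernel

theorem noroot (t : ZMod 5) :
    t ^ 3 + ((-459878073574319139 : ℤ) : ZMod 5) * t +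
      ((162579259487614027045167326 : ℤ) : ZMod 5) ≠ 0 := by
  revert t
  decide

theorem castAB {a b : ℤ} {q : ℕ} (hq : q.Prime) (hq1 : q ≤ QQ)
    (h : ((QQ.factorial : ℕ) : ℤ) ∣ a - b) : (a : ZMod q) = (b : ZMod q) := by
  rw [← sub_eq_zero, ← Int.cast_sub]
  exact (ZMod.intCast_zmod_eq_zero_iff_dvd _ q).2 ((dvdM hq hq1).trans h)

theorem step {w : Par} (h : Cong w)
    (hA : ((QQ.factorial : ℕ) : ℤ) ∣ cA w - (-459878073574319139))
    (hB : ((QQ.factorial : ℕ) : ℤ) ∣ cB w - 162579259487614027045167326)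
    (S : Finset (Fin 8)) (q : ℕ) (e : ℤ) (hq : q.Prime) (hq1 : q ≤ QQ)
    (h1 : ((e ^ 3 + (-459878073574319139) * e + 162579259487614027045167326 : ℤ) : ZMod q) = 0)
    (h2 : ((3 * e ^ 2 + (-459878073574319139) : ℤ) : ZMod q) ≠ 0)
    (h3 : ¬ IsSquare (∏ i ∈ S, ((PX i - e * PV i ^ 2 : ℤ) : ZMod q))) :
    ∃ (q : ℕ) (e : ℤ), q.Prime ∧
      ((e ^ 3 + cA w * e + cB w : ℤ) : ZMod q) = 0 ∧ ((3 * e ^ 2 + cA w : ℤ) : ZMod q) ≠ 0 ∧
      ¬ IsSquare (∏ i ∈ S, ((px w i - e * pv w i ^ 2 : ℤ) : ZMod q)) := by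
  have cA' := castAB hq hq1 hA
  have cB' := castAB hq hq1 hB
  refine ⟨q, e, hq, ?_, ?_, ?_⟩
  · rw [← h1]
    simp only [Int.cast_add, Int.cast_mul, Int.cast_pow]
    rw [cA', cB']
  · intro h4
    apply h2
    rw [← h4]
    simp only [Int.cast_add, Int.cast_mul, Int.cast_pow]
    rw [cA']
  · intro h4
    apply h3
    refine (congrArg IsSquare ?_).mp h4
    apply Finset.prod_congr rfl
    intro i _
    simp only [Int.cast_sub, Int.cast_mul, Int.cast_pow]
    rw [px_cast h hq hq1 i, pv_cast h hq hq1 i]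

end S46

open S46 in
/-- row CERT -/
theorem st_CERT (hREL : ST_REL) (hPTS : ST_PTS) (hR : ST_RANKQ) : ST_CERT := by
  intro w hw
  obtain ⟨-, -, hA, hB⟩ := hREL w hw
  have hdisc : 4 * cA w ^ 3 + 27 * cB w ^ 2 ≠ 0 := by
    intro h
    have h3 := congrArg (fun z : ℤ => (z : ZMod 5)) h
    simp only [Int.cast_add, Int.cast_mul, Int.cast_pow] at h3
    rw [castAB (by norm_num) (by unfold QQ; norm_num) hA,
      castAB (by norm_num) (by unfold QQ; norm_num) hB] at h3
    revert h3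
    decide
  refine ⟨hdisc, ?_, ?_⟩
  · intro q hq hq1 hdv
    obtain ⟨ha, hb⟩ := hdv
    have hqM := dvdM hq hq1
    have ha' : (q : ℤ) ∣ -459878073574319139 :=
      (dvd_sub_right ha).1 (hqM.trans hA)
    have hb' : (q : ℤ) ∣ 162579259487614027045167326 :=
      (dvd_sub_right hb).1 (hqM.trans hB)
    have h1' : (q : ℤ) ∣ 1 := by
      have e2 : IsCoprime (-459878073574319139 : ℤ) 162579259487614027045167326 := by
        rw [Int.isCoprime_iff_gcd_eq_one]
        norm_num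
      obtain ⟨a, b, hab⟩ := e2
      rw [← hab]
      exact dvd_add (ha'.mul_left a) (hb'.mul_left b)
    have h2' : q ∣ 1 := by exact_mod_cast h1'
    exact hq.one_lt.ne' (Nat.dvd_one.1 h2')
  · refine hR 8 _ _ (px w) (pv w) (fun i => (hPTS w hw i).1) (fun i => (hPTS w hw i).2) hdisc 5
      ?_ ?_
    · intro t
      rw [castAB (by norm_num) (by unfold QQ; norm_num) hA,
        castAB (by norm_num) (by unfold QQ; norm_num) hB]
      exact noroot t
    · intro S hS
      rcases dec8 S hS with h | h | h | h | h | h | h | h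
      · exact step hw hA hB S 11 4 (by norm_num) (by unfold QQ; norm_num) (by decide)
          (by decide) h
      · exact step hw hA hB S 13 9 (by norm_num) (by unfold QQ; norm_num) (by decide)
          (by decide) h
      · exact step hw hA hB S 17 11 (by norm_num) (by unfold QQ; norm_num) (by decide)
          (by decide) h
      · exact step hw hA hB S 19 4 (by norm_num) (by unfold QQ; norm_num) (by decide)
          (by decide) h
      · exact step hw hA hB S 19 6 (by norm_num) (by unfold QQ; norm_num) (by decide)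
          (by decide) h
      · exact step hw hA hB S 23 18 (by norm_num) (by unfold QQ; norm_num) (by decide)
          (by decide) h
      · exact step hw hA hB S 29 0 (by norm_num) (by unfold QQ; norm_num) (by decide)
          (by decide) h
      · exact step hw hA hB S 29 9 (by norm_num) (by unfold QQ; norm_num) (by decide)
          (by decide) h

end Pool.Helper17.R8
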